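import Pool.Agent.Lib.MP_6bc78b_nt.GP.H34.Tai7

/-! Project GP10: the energy at positive frequencies is flat, for the coefficients `b * β` with
`∑_{m, m'} β(m) β(m') / lcm(m, m') ≤ C₁`. -/

set_option autoImplicit false

open Complex Filter Topology MeasureTheory ArithmeticFunction Set
open scoped ENNReal ComplexConjugate

namespace Pool.Agent.Lib.MP_6bc78b_nt.GP.H41B

open Pool.Agent.Lib.MP_6bc78b_nt.MS Pool.Agent.Lib.MP_6bc78b_nt.MS.P1
open Pool.Agent.Lib.MP_6bc78b_nt.GP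
open H76 H34T

/-- `∑_{m ∈ S} β(m) E(mz)`. -/
noncomputable def EM (A B : ℝ) (S : Finset ℕ) (β : ℕ → ℝ) (z : ℂ) : ℂ :=
  ∑ m ∈ S, (β m : ℂ) * EE A B (m * z)

/-- The coefficients `∑_{m | n} β(m) b(n/m)`. -/
noncomputable def am (A B : ℝ) (S : Finset ℕ) (β : ℕ → ℝ) (n : ℕ) : ℝ :=
  ∑ m ∈ S, if m ∣ n then β m * bn A B (n / m) else 0

/-- `∑_{m | n} β(m)`. -/
noncomputable def sm (S : Finset ℕ) (β : ℕ → ℝ) (n : ℕ) : ℝ :=
  ∑ m ∈ S, if m ∣ n then β m else 0

lemma hasSum_one (A B : ℝ) {m : ℕ} (hm : 1 ≤ m) {z : ℂ} (hz : 0 < z.re) :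
    HasSum (fun n : ℕ => ((if m ∣ n then bn A B (n / m) else 0 : ℝ) : ℂ) *
      Complex.exp (-(n * z))) (EE A B (m * z)) := by
  have hmz : 0 < ((m : ℂ) * z).re := by
    have : ((m : ℂ) * z).re = m * z.re := by simp
    rw [this]
    have : (0 : ℝ) < m := by exact_mod_cast hm
    positivity
  have h1 : HasSum (fun n : ℕ => (bn A B n : ℂ) * Complex.exp (-(n * (m * z))))
      (EE A B (m * z)) := (H4.summable_EE H38.dx2 A B hmz).hasSum
  have hinj : Function.Injective (fun k : ℕ => m * k) :=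
    fun a b h => Nat.eq_of_mul_eq_mul_left hm h
  refine (hinj.hasSum_iff ?_).1 ?_
  · intro n hn
    have h2 : ¬ m ∣ n := by
      rintro ⟨k, hk⟩
      exact hn ⟨k, hk.symm⟩
    simp [h2]
  · convert h1 using 1
    funext k
    simp only [Function.comp]
    rw [if_pos (Dvd.intro k rfl), Nat.mul_div_cancel_left k hm]
    congr 2
    push_cast
    ring

lemma hasSum_EM (A B : ℝ) {S : Finset ℕ} (hS : ∀ m ∈ S, 1 ≤ m) (β : ℕ → ℝ) {z : ℂ}
    (hz : 0 < z.re) :
    HasSum (fun n : ℕ => (am A B S β n : ℂ) * Complex.exp (-(n * z))) (EM A B S β z) := by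
  have h1 : HasSum (fun n : ℕ => ∑ m ∈ S, (β m : ℂ) *
      (((if m ∣ n then bn A B (n / m) else 0 : ℝ) : ℂ) * Complex.exp (-(n * z))))
      (EM A B S β z) :=
    hasSum_sum fun m hm => (hasSum_one A B (hS m hm) hz).mul_left _
  convert h1 using 1
  funext n
  unfold am
  rw [Complex.ofReal_sum, Finset.sum_mul]
  refine Finset.sum_congr rfl fun m _ => ?_
  split_ifs
  · push_cast
    ring
  · simp

lemma am_le {A B C : ℝ} (hb : ∀ n : ℕ, |bn A B n| ≤ C * (1 + Real.log n) ^ 2) (hC : 0 ≤ C)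
    {S : Finset ℕ} (hS : ∀ m ∈ S, 1 ≤ m) {β : ℕ → ℝ} (hβ : ∀ m, 0 ≤ β m) (n : ℕ) :
    |am A B S β n| ≤ C * (1 + Real.log n) ^ 2 * sm S β n := by
  unfold am sm
  rw [Finset.mul_sum]
  refine (Finset.abs_sum_le_sum_abs _ _).trans (Finset.sum_le_sum fun m hm => ?_)
  split_ifs with h
  · rw [abs_mul, abs_of_nonneg (hβ m), mul_comm]
    refine mul_le_mul_of_nonneg_right ((hb _).trans (mul_le_mul_of_nonneg_left ?_ hC)) (hβ m)
    obtain ⟨k, rfl⟩ := h
    have hm1 := hS m hm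
    rw [Nat.mul_div_cancel_left k hm1]
    have h0 : 0 ≤ Real.log k := Real.log_natCast_nonneg k
    have h1 : Real.log k ≤ Real.log ((m * k : ℕ) : ℝ) := by
      rcases Nat.eq_zero_or_pos k with hk | hk
      · simp [hk]
      · refine Real.log_le_log (by exact_mod_cast hk) ?_
        exact_mod_cast Nat.le_mul_of_pos_left k hm1
    exact pow_le_pow_left₀ (by linarith) (by linarith) 2
  · simp

/-- `∑_{1 ≤ n < N, d | n} e^{-nx} ≤ 1/(dx)`. -/
lemma geo_dvd {x : ℝ} (hx : 0 < x) {d : ℕ} (hd : 1 ≤ d) (N : ℕ) :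
    ∑ n ∈ Finset.range N, (if d ∣ (n + 1) then Real.exp (-x) ^ (n + 1) else 0) ≤
      1 / (d * x) := by
  have hd0 : (0 : ℝ) < d := by exact_mod_cast hd
  have h1 := geo_le (x := d * x) (by positivity) N
  refine le_trans ?_ h1
  rw [← Finset.sum_filter]
  have hinj : Set.InjOn (fun n : ℕ => (n + 1) / d - 1)
      (((Finset.range N).filter (fun n => d ∣ (n + 1)) : Finset ℕ) : Set ℕ) := by
    intro a ha b hb hab
    simp only [Finset.coe_filter, Set.mem_ofPred_eq, Finset.mem_range] at ha hb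
    obtain ⟨ka, hka⟩ := ha.2
    obtain ⟨kb, hkb⟩ := hb.2
    simp only at hab
    rw [hka, hkb, Nat.mul_div_cancel_left ka hd, Nat.mul_div_cancel_left kb hd] at hab
    have h2 : ka ≠ 0 := by
      rintro rfl
      simp at hka
    have h3 : kb ≠ 0 := by
      rintro rfl
      simp at hkb
    have h4 : ka = kb := by omega
    rw [h4, ← hkb] at hka
    omega
  calc ∑ n ∈ (Finset.range N).filter (fun n => d ∣ (n + 1)), Real.exp (-x) ^ (n + 1)
      = ∑ n ∈ (Finset.range N).filter (fun n => d ∣ (n + 1)),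
          (fun k : ℕ => Real.exp (-(d * x)) ^ (k + 1)) ((n + 1) / d - 1) := by
        refine Finset.sum_congr rfl fun n hn => ?_
        rw [Finset.mem_filter] at hn
        obtain ⟨k, hk⟩ := hn.2
        have hk0 : k ≠ 0 := by
          rintro rfl
          simp at hk
        simp only
        rw [hk, Nat.mul_div_cancel_left k hd, Nat.sub_add_cancel (by omega),
          ← Real.exp_nat_mul, ← Real.exp_nat_mul]
        congr 1
        push_cast
        ring
    _ = ∑ k ∈ ((Finset.range N).filter (fun n => d ∣ (n + 1))).image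
          (fun n : ℕ => (n + 1) / d - 1), Real.exp (-(d * x)) ^ (k + 1) := by
        rw [Finset.sum_image hinj]
    _ ≤ ∑ k ∈ Finset.range N, Real.exp (-(d * x)) ^ (k + 1) := by
        refine Finset.sum_le_sum_of_subset_of_nonneg ?_ fun k _ _ => by positivity
        intro k hk
        rw [Finset.mem_image] at hk
        obtain ⟨n, hn, rfl⟩ := hk
        rw [Finset.mem_filter, Finset.mem_range] at hn
        rw [Finset.mem_range]
        have : (n + 1) / d ≤ n + 1 := Nat.div_le_self _ _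
        omega

/-- `∑_{1 ≤ n < N} e^{-nx} s(n)² ≤ C₁ / x`. -/
lemma sum_sm {x C₁ : ℝ} (hx : 0 < x) {S : Finset ℕ} (hS : ∀ m ∈ S, 1 ≤ m) {β : ℕ → ℝ}
    (hβ : ∀ m, 0 ≤ β m)
    (h1 : ∑ m ∈ S, ∑ m' ∈ S, β m * β m' / (Nat.lcm m m' : ℝ) ≤ C₁) (N : ℕ) :
    ∑ n ∈ Finset.range N, Real.exp (-x) ^ (n + 1) * sm S β (n + 1) ^ 2 ≤ C₁ / x := by
  have e1 : ∀ n : ℕ, Real.exp (-x) ^ (n + 1) * sm S β (n + 1) ^ 2 =
      ∑ m ∈ S, ∑ m' ∈ S, β m * β m' *
        (if Nat.lcm m m' ∣ (n + 1) then Real.exp (-x) ^ (n + 1) else 0) := by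
    intro n
    unfold sm
    rw [sq, Finset.sum_mul_sum, Finset.mul_sum]
    refine Finset.sum_congr rfl fun m _ => ?_
    rw [Finset.mul_sum]
    refine Finset.sum_congr rfl fun m' _ => ?_
    by_cases ha : m ∣ (n + 1)
    · by_cases hb : m' ∣ (n + 1)
      · rw [if_pos ha, if_pos hb, if_pos (Nat.lcm_dvd ha hb)]
        ring
      · rw [if_neg hb, if_neg (fun h => hb ((Nat.dvd_lcm_right m m').trans h))]
        ring
    · rw [if_neg ha, if_neg (fun h => ha ((Nat.dvd_lcm_left m m').trans h))]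
      ring
  simp only [e1]
  rw [Finset.sum_comm]
  calc ∑ m ∈ S, ∑ n ∈ Finset.range N, ∑ m' ∈ S, β m * β m' *
        (if Nat.lcm m m' ∣ (n + 1) then Real.exp (-x) ^ (n + 1) else 0)
      ≤ ∑ m ∈ S, ∑ m' ∈ S, β m * β m' / (Nat.lcm m m' : ℝ) * (1 / x) := by
        refine Finset.sum_le_sum fun m hm => ?_
        rw [Finset.sum_comm]
        refine Finset.sum_le_sum fun m' hm' => ?_
        rw [← Finset.mul_sum]
        have hl : 1 ≤ Nat.lcm m m' := Nat.lcm_pos (hS m hm) (hS m' hm')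
        refine (mul_le_mul_of_nonneg_left (geo_dvd hx hl N)
          (mul_nonneg (hβ m) (hβ m'))).trans (le_of_eq ?_)
        have hl0 : (Nat.lcm m m' : ℝ) ≠ 0 := by
          have : (0 : ℝ) < (Nat.lcm m m' : ℝ) := by exact_mod_cast hl
          exact this.ne'
        field_simp
    _ = (∑ m ∈ S, ∑ m' ∈ S, β m * β m' / (Nat.lcm m m' : ℝ)) * (1 / x) := by
        rw [Finset.sum_mul]
        refine Finset.sum_congr rfl fun m _ => ?_
        rw [Finset.sum_mul]
    _ ≤ C₁ * (1 / x) := mul_le_mul_of_nonneg_right h1 (by positivity)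
    _ = C₁ / x := by ring

/-- The size of the squares. -/
lemma size_am {A B C C₁ : ℝ} (hb : ∀ n : ℕ, |bn A B n| ≤ C * (1 + Real.log n) ^ 2) (hC : 0 ≤ C)
    {S : Finset ℕ} (hS : ∀ m ∈ S, 1 ≤ m) {β : ℕ → ℝ} (hβ : ∀ m, 0 ≤ β m)
    (h1 : ∑ m ∈ S, ∑ m' ∈ S, β m * β m' / (Nat.lcm m m' : ℝ) ≤ C₁)
    {x : ℝ} (hx : 0 < x) (N : ℕ) :
    ∑ n ∈ Finset.range N, (am A B S β n * Real.exp (-(n * x))) ^ 2 ≤
      72 * (C ^ 2 * C₁) * (1 + Real.log (1 + 1 / x)) ^ 4 / x := by
  have hl0 : 0 ≤ Real.log (1 + 1 / x) := Real.log_nonneg (by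
    have : 0 < 1 / x := by positivity
    linarith)
  have hC₁ : 0 ≤ C₁ := by
    refine le_trans ?_ h1
    refine Finset.sum_nonneg fun m _ => Finset.sum_nonneg fun m' _ => ?_
    exact div_nonneg (mul_nonneg (hβ m) (hβ m')) (Nat.cast_nonneg _)
  have hK : 0 ≤ 72 * (C ^ 2 * C₁) * (1 + Real.log (1 + 1 / x)) ^ 4 / x := by positivity
  rcases N with _ | N
  · simpa using hK
  have h0 : am A B S β 0 = 0 := by
    unfold am
    refine Finset.sum_eq_zero fun m _ => ?_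
    simp [bn]
  rw [Finset.sum_range_succ', h0]
  simp only [zero_mul, ne_eq, OfNat.ofNat_ne_zero, not_false_eq_true, zero_pow, add_zero]
  have h2 : ∀ n ∈ Finset.range N,
      (am A B S β (n + 1) * Real.exp (-(((n + 1 : ℕ) : ℝ) * x))) ^ 2 ≤
      C ^ 2 * (72 * (1 + Real.log (1 + 1 / x)) ^ 4) *
        (Real.exp (-x) ^ (n + 1) * sm S β (n + 1) ^ 2) := by
    intro n _
    have h3 : am A B S β (n + 1) ^ 2 ≤
        (C * (1 + Real.log ((n + 1 : ℕ) : ℝ)) ^ 2 * sm S β (n + 1)) ^ 2 := by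
      rw [← sq_abs]
      exact pow_le_pow_left₀ (abs_nonneg _) (am_le hb hC hS hβ (n + 1)) 2
    have h4 := term_le hx n
    have e1 : Real.exp (-(((n + 1 : ℕ) : ℝ) * x)) ^ 2 =
        Real.exp (-(2 * ((n + 1 : ℕ) : ℝ) * x)) := by
      rw [← Real.exp_nat_mul]
      congr 1
      push_cast
      ring
    rw [mul_pow, e1]
    calc am A B S β (n + 1) ^ 2 * Real.exp (-(2 * ((n + 1 : ℕ) : ℝ) * x))
        ≤ (C * (1 + Real.log ((n + 1 : ℕ) : ℝ)) ^ 2 * sm S β (n + 1)) ^ 2 *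
          Real.exp (-(2 * ((n + 1 : ℕ) : ℝ) * x)) :=
          mul_le_mul_of_nonneg_right h3 (Real.exp_pos _).le
      _ = C ^ 2 * sm S β (n + 1) ^ 2 * ((1 + Real.log ((n + 1 : ℕ) : ℝ)) ^ 4 *
          Real.exp (-(2 * ((n + 1 : ℕ) : ℝ) * x))) := by ring
      _ ≤ C ^ 2 * sm S β (n + 1) ^ 2 *
          (72 * (1 + Real.log (1 + 1 / x)) ^ 4 * Real.exp (-x) ^ (n + 1)) :=
          mul_le_mul_of_nonneg_left h4 (by positivity)
      _ = _ := by ring
  refine (Finset.sum_le_sum h2).trans ?_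
  rw [← Finset.mul_sum]
  calc C ^ 2 * (72 * (1 + Real.log (1 + 1 / x)) ^ 4) *
        ∑ n ∈ Finset.range N, Real.exp (-x) ^ (n + 1) * sm S β (n + 1) ^ 2
      ≤ C ^ 2 * (72 * (1 + Real.log (1 + 1 / x)) ^ 4) * (C₁ / x) :=
        mul_le_mul_of_nonneg_left (sum_sm hx hS hβ h1 N) (by positivity)
    _ = _ := by ring

/-- `|EM|²` on the right half plane, `0` elsewhere. -/
noncomputable def gM (A B : ℝ) (S : Finset ℕ) (β : ℕ → ℝ) (z : ℂ) : ℝ≥0∞ :=
  ENNReal.ofReal (‖(if 0 < z.re then EM A B S β z else 0 : ℂ)‖ ^ 2)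

theorem measurable_gM (A B : ℝ) {S : Finset ℕ} (hS : ∀ m ∈ S, 1 ≤ m) (β : ℕ → ℝ) :
    Measurable (gM A B S β) := by
  have hset : MeasurableSet {z : ℂ | 0 < z.re} :=
    measurableSet_lt measurable_const Complex.measurable_re
  have h1 : Measurable fun z : ℂ => (if 0 < z.re then EM A B S β z else 0 : ℂ) := by
    refine measurable_of_tendsto_metrizable
      (f := fun (N : ℕ) (z : ℂ) => (if 0 < z.re then
        ∑ n ∈ Finset.range N, (am A B S β n : ℂ) * Complex.exp (-(n * z)) else 0 : ℂ))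
      (fun N => Measurable.ite hset ?_ measurable_const) ?_
    · refine Finset.measurable_sum _ fun n _ => ?_
      fun_prop
    · rw [tendsto_pi_nhds]
      intro z
      by_cases hz : 0 < z.re
      · simp only [hz, if_true]
        exact (hasSum_EM A B hS β hz).tendsto_sum_nat
      · simp only [hz, if_false]
        exact tendsto_const_nhds
  unfold gM
  exact (h1.norm.pow_const 2).ennreal_ofReal

/-- The integral over a rectangle. -/
lemma rc_le {A B C C₁ : ℝ} (hb : ∀ n : ℕ, |bn A B n| ≤ C * (1 + Real.log n) ^ 2) (hC : 0 ≤ C)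
    {S : Finset ℕ} (hS : ∀ m ∈ S, 1 ≤ m) {β : ℕ → ℝ} (hβ : ∀ m, 0 ≤ β m)
    (h1 : ∑ m ∈ S, ∑ m' ∈ S, β m * β m' / (Nat.lcm m m' : ℝ) ≤ C₁)
    {T : ℝ} (hT : 10 ≤ T) (k : ℤ) :
    ∫⁻ z in RC k T, gM A B S β z ≤
      ENNReal.ofReal (30 * Real.exp k / T * ((2 * Real.pi * Real.exp (k + 1) + 4 * Real.pi) *
        (72 * (C ^ 2 * C₁) * (1 + Real.log (1 + T / (5 * Real.exp k))) ^ 4 /
          (5 * Real.exp k / T)))) := by
  have hTp : 0 < T := by linarith
  have hpi := Real.pi_pos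
  have hek : 0 < Real.exp (k : ℝ) := Real.exp_pos _
  have hC₁ : 0 ≤ C₁ := by
    refine le_trans ?_ h1
    refine Finset.sum_nonneg fun m _ => Finset.sum_nonneg fun m' _ => ?_
    exact div_nonneg (mul_nonneg (hβ m) (hβ m')) (Nat.cast_nonneg _)
  set x1 : ℝ := 5 * Real.exp k / T with hx1
  have hx1p : 0 < x1 := by positivity
  unfold RC
  rw [iter_eq2 _ (measurable_gM A B hS β)]
  have hin : ∀ x ∈ Icc (5 * Real.exp k / T) (35 * Real.exp k / T),
      ∫⁻ y in Icc (-(2 * Real.pi)) (2 * Real.pi * Real.exp (k + 1)), gM A B S β (⟨x, y⟩ : ℂ) ≤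
      ENNReal.ofReal ((2 * Real.pi * Real.exp (k + 1) + 4 * Real.pi) *
        (72 * (C ^ 2 * C₁) * (1 + Real.log (1 + T / (5 * Real.exp k))) ^ 4 / x1)) := by
    intro x hx
    have hx0 : x1 ≤ x := hx.1
    have hxp : 0 < x := lt_of_lt_of_le hx1p hx0
    have hre : ∀ y : ℝ, 0 < ((x : ℂ) + y * I).re := by
      intro y
      simpa using hxp
    have e1 : ∀ y : ℝ, gM A B S β (⟨x, y⟩ : ℂ) = ENNReal.ofReal
        (‖∑' n : ℕ, (am A B S β n : ℂ) * Complex.exp (-(n * (x + y * I)))‖ ^ 2) := by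
      intro y
      have e2 : (⟨x, y⟩ : ℂ) = x + y * I := by
        apply Complex.ext <;> simp
      unfold gM
      rw [if_pos hxp, e2, (hasSum_EM A B hS β (hre y)).tsum_eq]
    simp only [e1]
    have hl : Real.log (1 + 1 / x) ≤ Real.log (1 + T / (5 * Real.exp k)) := by
      refine Real.log_le_log (by positivity) ?_
      have e3 : T / (5 * Real.exp k) = 1 / x1 := by
        rw [hx1]
        field_simp
      rw [e3]
      have := one_div_le_one_div_of_le hx1p hx0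
      linarith
    have hl0 : 0 ≤ Real.log (1 + 1 / x) := Real.log_nonneg (by
      have : 0 < 1 / x := by positivity
      linarith)
    have hs := ser_le (am A B S β) x
      (72 * (C ^ 2 * C₁) * (1 + Real.log (1 + T / (5 * Real.exp k))) ^ 4 / x1)
      (fun y => (hasSum_EM A B hS β (hre y)).summable)
      (fun N => (size_am hb hC hS hβ h1 hxp N).trans (by
        refine div_le_div₀ (by positivity) ?_ hx1p hx0
        refine mul_le_mul_of_nonneg_left ?_ (by positivity)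
        exact pow_le_pow_left₀ (by linarith) (by linarith) 4))
      (-(2 * Real.pi)) (2 * Real.pi * Real.exp (k + 1)) (by
        have : 0 < 2 * Real.pi * Real.exp ((k : ℝ) + 1) := by positivity
        linarith)
    refine hs.trans (le_of_eq ?_)
    congr 1
    ring
  refine (setLIntegral_mono' measurableSet_Icc hin).trans ?_
  rw [setLIntegral_const, Real.volume_Icc, mul_comm, ← ENNReal.ofReal_mul]
  · refine ENNReal.ofReal_le_ofReal (le_of_eq ?_)
    ring
  · have e : 35 * Real.exp (k : ℝ) / T - 5 * Real.exp k / T = 30 * (Real.exp k / T) := by ring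
    rw [e]
    positivity

/-- `e^{-2k}` times the integral over the image. -/
lemma box_le {A B C C₁ : ℝ} (hb : ∀ n : ℕ, |bn A B n| ≤ C * (1 + Real.log n) ^ 2) (hC : 0 ≤ C)
    {S : Finset ℕ} (hS : ∀ m ∈ S, 1 ≤ m) {β : ℕ → ℝ} (hβ : ∀ m, 0 ≤ β m)
    (h1 : ∑ m ∈ S, ∑ m' ∈ S, β m * β m' / (Nat.lcm m m' : ℝ) ≤ C₁)
    {T : ℝ} (hT : 10 ≤ T) (k : ℤ) :
    ∫⁻ w in BX k T, gM A B S β (ph w) ≤
      ENNReal.ofReal (1 / (4 * Real.pi ^ 2 * Real.exp (2 * k))) *
        ENNReal.ofReal (30 * Real.exp k / T * ((2 * Real.pi * Real.exp (k + 1) + 4 * Real.pi) *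
        (72 * (C ^ 2 * C₁) * (1 + Real.log (1 + T / (5 * Real.exp k))) ^ 4 /
          (5 * Real.exp k / T)))) := by
  have hpi := Real.pi_pos
  have e2 : ∫⁻ z in ph '' (BX k T), gM A B S β z =
      ∫⁻ w in BX k T, ENNReal.ofReal |(dph w).det| * gM A B S β (ph w) :=
    lintegral_image_eq_lintegral_abs_det_fderiv_mul volume (measurableSet_BX k T)
      (fun w _ => (hasFDerivAt_ph w).hasFDerivWithinAt) (injOn_BX hT k) _
  have h3 : ∫⁻ z in ph '' (BX k T), gM A B S β z ≤ _ :=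
    (lintegral_mono_set (image_BX hT k)).trans (rc_le hb hC hS hβ h1 hT k)
  refine le_trans ?_ (mul_le_mul' le_rfl h3)
  rw [e2, ← lintegral_const_mul]
  · refine setLIntegral_mono' (measurableSet_BX k T) fun w hw => ?_
    rw [← mul_assoc, ← ENNReal.ofReal_mul (by positivity), det_dph]
    have h4 : 1 ≤ 1 / (4 * Real.pi ^ 2 * Real.exp (2 * k)) *
        (4 * Real.pi ^ 2 * Real.exp (2 * w.re)) := by
      rw [one_div, inv_mul_eq_div, one_le_div (by positivity)]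
      refine mul_le_mul_of_nonneg_left (Real.exp_le_exp.2 ?_) (by positivity)
      linarith [hw.1.1]
    calc gM A B S β (ph w) = ENNReal.ofReal 1 * gM A B S β (ph w) := by
          rw [ENNReal.ofReal_one, one_mul]
      _ ≤ _ := mul_le_mul' (ENNReal.ofReal_le_ofReal h4) le_rfl
  · refine Measurable.mul ?_ ((measurable_gM A B hS β).comp measurable_ph)
    simp only [det_dph]
    fun_prop

/-- The numbers. -/
lemma num_le {K : ℝ} (hK : 0 ≤ K) {T : ℝ} (hT : 10 < T) (k : ℕ) :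
    Real.exp ((k : ℝ) + 1) * (1 / (4 * Real.pi ^ 2 * Real.exp (2 * k)) *
      (30 * Real.exp k / T * ((2 * Real.pi * Real.exp (k + 1) + 4 * Real.pi) *
        (72 * K * (1 + Real.log (1 + T / (5 * Real.exp k))) ^ 4 / (5 * Real.exp k / T))))) ≤
      K * 100000 * Real.log T ^ 4 := by
  have hTp : 0 < T := by linarith
  have hpi := Real.pi_pos
  have hpi3 := Real.pi_gt_three
  have hL : 1 ≤ Real.log T := by
    rw [Real.le_log_iff_exp_le hTp]
    have := Real.exp_one_lt_d9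
    linarith
  have hek : 1 ≤ Real.exp (k : ℝ) := Real.one_le_exp (Nat.cast_nonneg k)
  have hek0 : 0 < Real.exp (k : ℝ) := Real.exp_pos _
  have hl : 1 + Real.log (1 + T / (5 * Real.exp k)) ≤ 2 * Real.log T := by
    have h1 : 1 + T / (5 * Real.exp k) ≤ T / Real.exp 1 := by
      have h2 : T / (5 * Real.exp k) ≤ T / 5 := by
        refine div_le_div_of_nonneg_left hTp.le (by norm_num) ?_
        linarith
      have h3 : T / 2.72 ≤ T / Real.exp 1 := by
        refine div_le_div_of_nonneg_left hTp.le (Real.exp_pos 1) ?_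
        have := Real.exp_one_lt_d9
        linarith
      have h4 : 1 + T / 5 ≤ T / 2.72 := by
        rw [le_div_iff₀ (by norm_num)]
        linarith
      linarith
    have h5 : Real.log (1 + T / (5 * Real.exp k)) ≤ Real.log T - 1 := by
      refine (Real.log_le_log (by positivity) h1).trans (le_of_eq ?_)
      rw [Real.log_div hTp.ne' (Real.exp_pos 1).ne', Real.log_exp]
    linarith
  have hl0 : 0 ≤ 1 + Real.log (1 + T / (5 * Real.exp k)) := by
    have : 0 ≤ Real.log (1 + T / (5 * Real.exp k)) := Real.log_nonneg (by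
      have : 0 < T / (5 * Real.exp (k : ℝ)) := by positivity
      linarith)
    linarith
  have hl4 : (1 + Real.log (1 + T / (5 * Real.exp k))) ^ 4 ≤ 16 * Real.log T ^ 4 := by
    refine (pow_le_pow_left₀ hl0 hl 4).trans (le_of_eq ?_)
    ring
  have hy : 2 * Real.pi * Real.exp (k + 1) + 4 * Real.pi ≤ 10 * Real.pi * Real.exp k := by
    have h1 : Real.exp ((k : ℝ) + 1) ≤ 3 * Real.exp k := by
      rw [Real.exp_add, mul_comm]
      have := Real.exp_one_lt_d9
      exact mul_le_mul_of_nonneg_right (by linarith) hek0.le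
    nlinarith
  have hx : 30 * Real.exp (k : ℝ) / T * ((2 * Real.pi * Real.exp (k + 1) + 4 * Real.pi) *
        (72 * K * (1 + Real.log (1 + T / (5 * Real.exp k))) ^ 4 / (5 * Real.exp k / T))) =
      432 * K * ((2 * Real.pi * Real.exp (k + 1) + 4 * Real.pi) *
        (1 + Real.log (1 + T / (5 * Real.exp k))) ^ 4) := by
    field_simp
    ring
  rw [hx]
  have h6 : (2 * Real.pi * Real.exp (k + 1) + 4 * Real.pi) *
        (1 + Real.log (1 + T / (5 * Real.exp k))) ^ 4 ≤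
      (10 * Real.pi * Real.exp k) * (16 * Real.log T ^ 4) :=
    mul_le_mul hy hl4 (by positivity) (by positivity)
  have e2 : Real.exp (2 * (k : ℝ)) = Real.exp k * Real.exp k := by
    rw [← Real.exp_add]
    congr 1
    ring
  have e3 : Real.exp ((k : ℝ) + 1) = Real.exp k * Real.exp 1 := Real.exp_add _ _
  calc Real.exp ((k : ℝ) + 1) * (1 / (4 * Real.pi ^ 2 * Real.exp (2 * k)) *
      (432 * K * ((2 * Real.pi * Real.exp (k + 1) + 4 * Real.pi) *
        (1 + Real.log (1 + T / (5 * Real.exp k))) ^ 4)))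
      ≤ Real.exp ((k : ℝ) + 1) * (1 / (4 * Real.pi ^ 2 * Real.exp (2 * k)) *
      (432 * K * ((10 * Real.pi * Real.exp k) * (16 * Real.log T ^ 4)))) := by
        refine mul_le_mul_of_nonneg_left ?_ (Real.exp_pos _).le
        refine mul_le_mul_of_nonneg_left ?_ (by positivity)
        exact mul_le_mul_of_nonneg_left h6 (by positivity)
    _ = K * (17280 * Real.exp 1 / Real.pi) * Real.log T ^ 4 := by
        rw [e2, e3]
        field_simp
        ring
    _ ≤ K * 100000 * Real.log T ^ 4 := by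
        refine mul_le_mul_of_nonneg_right (mul_le_mul_of_nonneg_left ?_ hK) (by positivity)
        rw [div_le_iff₀ hpi]
        have := Real.exp_one_lt_d9
        linarith

/-- The function on the `v`-side. -/
noncomputable def GB (A B : ℝ) (S : Finset ℕ) (β : ℕ → ℝ) (p : ℝ × ℝ) : ℝ≥0∞ :=
  gM A B S β (zp p.2 p.1) * ENNReal.ofReal (Real.exp p.2)

lemma meas_GB (A B : ℝ) {S : Finset ℕ} (hS : ∀ m ∈ S, 1 ≤ m) (β : ℕ → ℝ) :
    Measurable (GB A B S β) := by
  unfold GB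
  refine ((measurable_gM A B hS β).comp H92.meas_zp).mul ?_
  refine Measurable.ennreal_ofReal (Continuous.measurable ?_)
  fun_prop

/-- One unit block of positive frequencies. -/
lemma block_le {A B C C₁ : ℝ} (hb : ∀ n : ℕ, |bn A B n| ≤ C * (1 + Real.log n) ^ 2) (hC : 0 ≤ C)
    {S : Finset ℕ} (hS : ∀ m ∈ S, 1 ≤ m) {β : ℕ → ℝ} (hβ : ∀ m, 0 ≤ β m)
    (h1 : ∑ m ∈ S, ∑ m' ∈ S, β m * β m' / (Nat.lcm m m' : ℝ) ≤ C₁)
    {T : ℝ} (hT : 10 < T) (k : ℕ) :
    ∫⁻ δ in Icc (1 / T) (2 / T), ∫⁻ v in Icc (k : ℝ) (k + 1), GB A B S β (δ, v) ≤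
      ENNReal.ofReal (C ^ 2 * C₁ * 100000 * Real.log T ^ 4) := by
  have hC₁ : 0 ≤ C₁ := by
    refine le_trans ?_ h1
    refine Finset.sum_nonneg fun m _ => Finset.sum_nonneg fun m' _ => ?_
    exact div_nonneg (mul_nonneg (hβ m) (hβ m')) (Nat.cast_nonneg _)
  have hm0 : Measurable fun w : ℂ => gM A B S β (ph w) :=
    (measurable_gM A B hS β).comp measurable_ph
  have h2 : ∫⁻ δ in Icc (1 / T) (2 / T), ∫⁻ v in Icc (k : ℝ) (k + 1), GB A B S β (δ, v) ≤
      ENNReal.ofReal (Real.exp ((k : ℝ) + 1)) * ∫⁻ w in BX (k : ℤ) T, gM A B S β (ph w) := by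
    have hm : Measurable fun w : ℂ => ENNReal.ofReal (Real.exp ((k : ℝ) + 1)) *
        gM A B S β (ph w) := hm0.const_mul _
    rw [← lintegral_const_mul _ hm0]
    have h3 := iter_eq (fun w : ℂ => ENNReal.ofReal (Real.exp ((k : ℝ) + 1)) *
        gM A B S β (ph w)) hm (k : ℝ) (k + 1) (1 / T) (2 / T)
    have e : BX (k : ℤ) T = {w : ℂ | w.re ∈ Icc (k : ℝ) (k + 1) ∧
        w.im ∈ Icc (1 / T) (2 / T)} := by
      unfold BX
      simp
    rw [e]
    refine le_trans ?_ (le_of_eq h3)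
    refine lintegral_mono fun δ => ?_
    refine setLIntegral_mono' measurableSet_Icc fun v hv => ?_
    unfold GB
    rw [← zp_re_im, mul_comm]
    exact mul_le_mul' (ENNReal.ofReal_le_ofReal (Real.exp_le_exp.2 hv.2)) le_rfl
  refine h2.trans ((mul_le_mul' le_rfl (box_le hb hC hS hβ h1 hT.le (k : ℤ))).trans ?_)
  rw [← ENNReal.ofReal_mul (by positivity), ← ENNReal.ofReal_mul (by positivity)]
  refine ENNReal.ofReal_le_ofReal ?_
  have h4 := num_le (K := C ^ 2 * C₁) (by positivity) hT k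
  push_cast
  exact h4

/-- A band of positive frequencies: the energy is flat. -/
lemma band_le {A B C C₁ : ℝ} (hb : ∀ n : ℕ, |bn A B n| ≤ C * (1 + Real.log n) ^ 2) (hC : 0 ≤ C)
    {S : Finset ℕ} (hS : ∀ m ∈ S, 1 ≤ m) {β : ℕ → ℝ} (hβ : ∀ m, 0 ≤ β m)
    (h1 : ∑ m ∈ S, ∑ m' ∈ S, β m * β m' / (Nat.lcm m m' : ℝ) ≤ C₁)
    {T a b : ℝ} (hT : 10 < T) (ha : 0 ≤ a) (hab : a ≤ b) :
    ∫⁻ δ in Icc (1 / T) (2 / T), ∫⁻ v in Icc a b, GB A B S β (δ, v) ≤
      ENNReal.ofReal (C ^ 2 * C₁ * 100000 * (b - a + 2) * Real.log T ^ 4) := by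
  have hC₁ : 0 ≤ C₁ := by
    refine le_trans ?_ h1
    refine Finset.sum_nonneg fun m _ => Finset.sum_nonneg fun m' _ => ?_
    exact div_nonneg (mul_nonneg (hβ m) (hβ m')) (Nat.cast_nonneg _)
  have hL : 0 ≤ Real.log T := Real.log_nonneg (by linarith)
  have hmeas := meas_GB A B hS β
  have hcov : Icc a b ⊆ ⋃ k : {k // k ∈ Finset.Ico ⌊a⌋₊ (⌊b⌋₊ + 1)},
      Icc ((k : ℕ) : ℝ) ((k : ℕ) + 1) := by
    intro v hv
    have hv0 : 0 ≤ v := ha.trans hv.1
    rw [mem_iUnion]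
    refine ⟨⟨⌊v⌋₊, Finset.mem_Ico.2 ⟨Nat.floor_le_floor hv.1,
      Nat.lt_succ_of_le (Nat.floor_le_floor hv.2)⟩⟩, ?_⟩
    exact ⟨Nat.floor_le hv0, (Nat.lt_floor_add_one v).le⟩
  have h2 : ∀ δ : ℝ, ∫⁻ v in Icc a b, GB A B S β (δ, v) ≤
      ∑ k ∈ Finset.Ico ⌊a⌋₊ (⌊b⌋₊ + 1), ∫⁻ v in Icc (k : ℝ) (k + 1), GB A B S β (δ, v) := by
    intro δ
    refine (lintegral_mono_set hcov).trans ((lintegral_iUnion_le _ _).trans (le_of_eq ?_))
    exact Finset.tsum_subtype (Finset.Ico ⌊a⌋₊ (⌊b⌋₊ + 1))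
      (fun k : ℕ => ∫⁻ v in Icc (k : ℝ) (k + 1), GB A B S β (δ, v))
  refine (lintegral_mono fun δ => h2 δ).trans ?_
  rw [lintegral_finsetSum]
  · refine (Finset.sum_le_sum fun k _ => block_le hb hC hS hβ h1 hT k).trans ?_
    rw [Finset.sum_const, nsmul_eq_mul, ← ENNReal.ofReal_natCast,
      ← ENNReal.ofReal_mul (Nat.cast_nonneg _)]
    refine ENNReal.ofReal_le_ofReal ?_
    have h3 : (((Finset.Ico ⌊a⌋₊ (⌊b⌋₊ + 1)).card : ℕ) : ℝ) ≤ b - a + 2 := by
      rw [Nat.card_Ico]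
      have h4 : ⌊a⌋₊ ≤ ⌊b⌋₊ + 1 := (Nat.floor_le_floor hab).trans (Nat.le_succ _)
      rw [Nat.cast_sub h4]
      push_cast
      have h5 := Nat.floor_le (ha.trans hab)
      have h6 := Nat.lt_floor_add_one a
      linarith
    have h7 : 0 ≤ C ^ 2 * C₁ * 100000 * Real.log T ^ 4 := by positivity
    calc (((Finset.Ico ⌊a⌋₊ (⌊b⌋₊ + 1)).card : ℕ) : ℝ) *
          (C ^ 2 * C₁ * 100000 * Real.log T ^ 4)
        ≤ (b - a + 2) * (C ^ 2 * C₁ * 100000 * Real.log T ^ 4) :=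
          mul_le_mul_of_nonneg_right h3 h7
      _ = _ := by ring
  · intro k _
    exact hmeas.lintegral_prod_right'

end Pool.Agent.Lib.MP_6bc78b_nt.GP.H41B
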