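import Mathlib

/-! Project GP10: one good `δ` for finitely many averages. -/

set_option autoImplicit false

open MeasureTheory Set
open scoped ENNReal

namespace Pool.Agent.Lib.MP_6bc78b_nt.GP.H41B

/-- Finitely many averages: if `∑ c i < 1` and the average of `f i` over `I` is at most `M i`, then
some point has `f i ≤ M i / c i` for all `i`. -/
lemma good_delta {ι : Type} (s : Finset ι) {I : Set ℝ} (hI : MeasurableSet I) {V : ℝ} (hV : 0 < V)
    (hIV : volume I = ENNReal.ofReal V) (f : ι → ℝ → ℝ≥0∞) (hf : ∀ i ∈ s, Measurable (f i))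
    (M c : ι → ℝ) (hM : ∀ i ∈ s, 0 < M i) (hc : ∀ i ∈ s, 0 < c i) (hc1 : ∑ i ∈ s, c i < 1)
    (h : ∀ i ∈ s, ∫⁻ δ in I, f i δ ≤ ENNReal.ofReal (M i * V)) :
    ∃ δ ∈ I, ∀ i ∈ s, f i δ ≤ ENNReal.ofReal (M i / c i) := by
  by_contra hcon
  push Not at hcon
  have h1 : ∀ δ ∈ I, (1 : ℝ≥0∞) ≤ ∑ i ∈ s, ENNReal.ofReal (c i / M i) * f i δ := by
    intro δ hδ
    obtain ⟨i, hi, h2⟩ := hcon δ hδ
    have h3 : (1 : ℝ≥0∞) ≤ ENNReal.ofReal (c i / M i) * f i δ := by
      calc (1 : ℝ≥0∞) = ENNReal.ofReal (c i / M i) * ENNReal.ofReal (M i / c i) := by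
            rw [← ENNReal.ofReal_mul (div_nonneg (hc i hi).le (hM i hi).le)]
            have hci := (hc i hi).ne'
            have hMi := (hM i hi).ne'
            have : c i / M i * (M i / c i) = 1 := by field_simp
            rw [this, ENNReal.ofReal_one]
        _ ≤ _ := mul_le_mul' le_rfl h2.le
    exact h3.trans (Finset.single_le_sum (f := fun i => ENNReal.ofReal (c i / M i) * f i δ)
      (fun _ _ => zero_le) hi)
  have h4 : ENNReal.ofReal V ≤ ∫⁻ δ in I, ∑ i ∈ s, ENNReal.ofReal (c i / M i) * f i δ := by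
    have e1 : ∫⁻ _ in I, (1 : ℝ≥0∞) = ENNReal.ofReal V := by
      rw [setLIntegral_const, one_mul, hIV]
    rw [← e1]
    exact setLIntegral_mono' hI h1
  rw [lintegral_finsetSum' _ (fun i hi => ((hf i hi).const_mul _).aemeasurable)] at h4
  have h5 : ∑ i ∈ s, ∫⁻ δ in I, ENNReal.ofReal (c i / M i) * f i δ ≤
      ∑ i ∈ s, ENNReal.ofReal (c i * V) := by
    refine Finset.sum_le_sum fun i hi => ?_
    rw [lintegral_const_mul _ (hf i hi)]
    refine (mul_le_mul' le_rfl (h i hi)).trans (le_of_eq ?_)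
    rw [← ENNReal.ofReal_mul (div_nonneg (hc i hi).le (hM i hi).le)]
    congr 1
    have hMi := (hM i hi).ne'
    field_simp
  have h6 : ENNReal.ofReal V ≤ ENNReal.ofReal (∑ i ∈ s, c i * V) := by
    rw [ENNReal.ofReal_sum_of_nonneg (fun i hi => mul_nonneg (hc i hi).le hV.le)]
    exact h4.trans h5
  have h7 : 0 ≤ ∑ i ∈ s, c i * V := Finset.sum_nonneg fun i hi => mul_nonneg (hc i hi).le hV.le
  rw [ENNReal.ofReal_le_ofReal_iff h7, ← Finset.sum_mul] at h6
  nlinarith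

end Pool.Agent.Lib.MP_6bc78b_nt.GP.H41B
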