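import Pool.Agent.Lib.MP_6bc78b_nt.GP.H43.Defs10t
import Pool.Agent.Lib.MP_6bc78b_nt.GP.H41.Avgb10

/-! Project GP10, row AVGT: one good `δ`, for `B` of any length. -/

set_option autoImplicit false

open Complex Filter Topology MeasureTheory ArithmeticFunction Set
open scoped ENNReal

namespace Pool.Agent.Lib.MP_6bc78b_nt.GP.H41B

open Pool.Agent.Lib.MP_6bc78b_nt.MS Pool.Agent.Lib.MP_6bc78b_nt.MS.P1
open Pool.Agent.Lib.MP_6bc78b_nt.GP

/-- One good `δ`, for given `T` and any length `N`. -/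
theorem avg_one {A B Cb : ℝ} (hCb : 0 < Cb) (hb : ∀ (T N a b : ℝ) (S : Finset ℕ)
    (β : ℕ → ℝ), 10 < T → G10.Mol S β N 1 → 0 ≤ a → a ≤ b →
    ∫⁻ δ in Icc (1 / T) (2 / T), ∫⁻ v in Icc a b,
      ENNReal.ofReal (‖G10.EM A B S β (zp v δ)‖ ^ 2 * Real.exp v) ≤
      ENNReal.ofReal (Cb * (b - a + 2) * Real.log T ^ 4))
    {ε ν T w lam N : ℝ} {K : ℕ} {S : Finset ℕ} {β : ℕ → ℝ} {S' : ℕ → Finset ℕ}
    {β' : ℕ → ℕ → ℝ} (hε : 0 < ε) (hν1 : ν ≤ 1) (hT10 : 10 < T) (hw : 2 ≤ w)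
    (hS : G10.Scl w K S β S' β' N ν)
    (h0 : ∫⁻ δ in Icc (1 / T) (2 / T), ∫⁻ u in Icc (-1 : ℝ) 1,
      ENNReal.ofReal (‖G10.EM A B S β (zp u δ)‖ ^ 2 * Real.exp u / (1 + lam ^ 2 * u ^ 2)) ≤
      ENNReal.ofReal (ε / 4 * Real.log T ^ 4))
    (ht : ∫⁻ δ in Icc (1 / T) (2 / T), ∫⁻ u in {u : ℝ | 300 * Real.log (Real.log T) ≤ |u|},
      ENNReal.ofReal (‖G10.EM A B S β (zp u δ)‖ ^ 2 *
        Real.exp (-(G10.HH T lam ^ 2 * u ^ 2) + u)) ≤ ENNReal.ofReal 1) :
    ∃ δ ∈ Icc (1 / T) (2 / T),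
      ∫⁻ u in Icc (-1 : ℝ) 1,
        ENNReal.ofReal (‖G10.EM A B S β (zp u δ)‖ ^ 2 * Real.exp u / (1 + lam ^ 2 * u ^ 2)) ≤
        ENNReal.ofReal (ε * T * Real.log T ^ 4) ∧
      (∀ k ≤ K, ∫⁻ v in Icc (G10.pk w k / 2) (G10.pk w (k + 1) + G10.pk w k / 2),
        ENNReal.ofReal (‖G10.EM A B (S' k) (β' k) (zp v δ)‖ ^ 2 * Real.exp v) ≤
        ENNReal.ofReal ((12 * Cb + 4) * 2 ^ k * G10.pk w (k + 1) * T * Real.log T ^ 4)) ∧
      ∫⁻ u in {u : ℝ | 300 * Real.log (Real.log T) ≤ |u|},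
        ENNReal.ofReal (‖G10.EM A B S β (zp u δ)‖ ^ 2 *
          Real.exp (-(G10.HH T lam ^ 2 * u ^ 2) + u)) ≤
        ENNReal.ofReal ((12 * Cb + 4) * T) := by
  have hTp : 0 < T := by linarith
  have hL : 0 < Real.log T := Real.log_pos (by linarith)
  -- the three integrands
  have e1 : ∀ δ ∈ Icc (1 / T) (2 / T), ∫⁻ u in Icc (-1 : ℝ) 1,
      ENNReal.ofReal (‖G10.EM A B S β (zp u δ)‖ ^ 2 * Real.exp u / (1 + lam ^ 2 * u ^ 2)) =
      ∫⁻ u in Icc (-1 : ℝ) 1,
        gM A B S β (zp u δ) * ENNReal.ofReal (Real.exp u / (1 + lam ^ 2 * u ^ 2)) := by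
    intro δ hδ
    refine lintegral_congr fun u => ?_
    rw [mul_div_assoc]
    exact of_eq A B S β hT10 hδ u _
  have e2 : ∀ δ ∈ Icc (1 / T) (2 / T), ∫⁻ u in {u : ℝ | 300 * Real.log (Real.log T) ≤ |u|},
      ENNReal.ofReal (‖G10.EM A B S β (zp u δ)‖ ^ 2 *
        Real.exp (-(G10.HH T lam ^ 2 * u ^ 2) + u)) =
      ∫⁻ u in {u : ℝ | 300 * Real.log (Real.log T) ≤ |u|},
        gM A B S β (zp u δ) * ENNReal.ofReal (Real.exp (-(G10.HH T lam ^ 2 * u ^ 2) + u)) := by
    intro δ hδ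
    refine lintegral_congr fun u => ?_
    exact of_eq A B S β hT10 hδ u _
  have e3 : ∀ k : ℕ, ∀ δ ∈ Icc (1 / T) (2 / T),
      ∫⁻ v in Icc (G10.pk w k / 2) (G10.pk w (k + 1) + G10.pk w k / 2),
        ENNReal.ofReal (‖G10.EM A B (S' k) (β' k) (zp v δ)‖ ^ 2 * Real.exp v) =
      ∫⁻ v in Icc (G10.pk w k / 2) (G10.pk w (k + 1) + G10.pk w k / 2),
        gM A B (S' k) (β' k) (zp v δ) * ENNReal.ofReal (Real.exp v) := by
    intro k δ hδ
    refine lintegral_congr fun u => ?_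
    exact of_eq A B (S' k) (β' k) hT10 hδ u _
  obtain ⟨δ, hδ, h⟩ := good_delta (Finset.range (K + 1 + 2)) (I := Icc (1 / T) (2 / T))
    measurableSet_Icc (V := 1 / T) (by positivity)
    (by
      rw [Real.volume_Icc]
      congr 1
      ring)
    (agF (fun δ => ∫⁻ u in Icc (-1 : ℝ) 1,
        gM A B S β (zp u δ) * ENNReal.ofReal (Real.exp u / (1 + lam ^ 2 * u ^ 2)))
      (fun δ => ∫⁻ u in {u : ℝ | 300 * Real.log (Real.log T) ≤ |u|},
        gM A B S β (zp u δ) * ENNReal.ofReal (Real.exp (-(G10.HH T lam ^ 2 * u ^ 2) + u)))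
      (fun k δ => ∫⁻ v in Icc (G10.pk w k / 2) (G10.pk w (k + 1) + G10.pk w k / 2),
        gM A B (S' k) (β' k) (zp v δ) * ENNReal.ofReal (Real.exp v)))
    (by
      intro i hi
      rw [Finset.mem_range] at hi
      rcases i with _ | _ | k
      · refine meas_int A B hS.mol.one_le β ?_ _
        fun_prop
      · refine meas_int A B hS.mol.one_le β ?_ _
        fun_prop
      · refine meas_int A B (hS.mol' k (by omega)).one_le (β' k) ?_ _
        fun_prop)
    (agM (ε / 4 * T * Real.log T ^ 4) T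
      (fun k => 3 * Cb * G10.pk w (k + 1) * T * Real.log T ^ 4)) agC
    (by
      intro i hi
      rcases i with _ | _ | k
      · simp only [agM]
        positivity
      · exact hTp
      · simp only [agM]
        have := G10.pk_pos w (k + 1)
        positivity)
    (fun i _ => agC_pos i) (agC_sum (K + 1))
    (by
      intro i hi
      rw [Finset.mem_range] at hi
      rcases i with _ | _ | k
      · simp only [agF, agM]
        rw [← setLIntegral_congr_fun measurableSet_Icc e1]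
        refine h0.trans (ENNReal.ofReal_le_ofReal (le_of_eq ?_))
        field_simp
      · simp only [agF, agM]
        rw [← setLIntegral_congr_fun measurableSet_Icc e2]
        refine ht.trans (ENNReal.ofReal_le_ofReal (le_of_eq ?_))
        field_simp
      · simp only [agF, agM]
        rw [← setLIntegral_congr_fun measurableSet_Icc (e3 k)]
        have hp := G10.pk_pos w k
        have hp1 := G10.pk_pos w (k + 1)
        have hp2 : 1 ≤ G10.pk w (k + 1) := by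
          unfold G10.pk
          refine Real.one_le_exp ?_
          positivity
        refine (hb T _ (G10.pk w k / 2) (G10.pk w (k + 1) + G10.pk w k / 2) (S' k) (β' k) hT10
          (mol_one (hS.mol' k (by omega)) hν1) (by positivity) (by linarith)).trans
          (ENNReal.ofReal_le_ofReal ?_)
        have e4 : 3 * Cb * G10.pk w (k + 1) * T * Real.log T ^ 4 * (1 / T) =
            Cb * (3 * G10.pk w (k + 1)) * Real.log T ^ 4 := by
          field_simp
        rw [e4]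
        refine mul_le_mul_of_nonneg_right (mul_le_mul_of_nonneg_left ?_ hCb.le) (by positivity)
        linarith)
  refine ⟨δ, hδ, ?_, ?_, ?_⟩
  · have h2 := h 0 (by simp)
    simp only [agF, agM, agC] at h2
    rw [e1 δ hδ]
    refine h2.trans (ENNReal.ofReal_le_ofReal (le_of_eq ?_))
    ring
  · intro k hk
    have h2 := h (k + 2) (by rw [Finset.mem_range]; omega)
    simp only [agF, agM, agC] at h2
    rw [e3 k δ hδ]
    refine h2.trans (ENNReal.ofReal_le_ofReal ?_)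
    rw [one_div, inv_pow, div_inv_eq_mul]
    have hp1 := G10.pk_pos w (k + 1)
    have e5 : 3 * Cb * G10.pk w (k + 1) * T * Real.log T ^ 4 * 2 ^ (k + 2) =
        12 * Cb * (2 ^ k * G10.pk w (k + 1) * T * Real.log T ^ 4) := by
      ring
    have e6 : (12 * Cb + 4) * 2 ^ k * G10.pk w (k + 1) * T * Real.log T ^ 4 =
        (12 * Cb + 4) * (2 ^ k * G10.pk w (k + 1) * T * Real.log T ^ 4) := by
      ring
    rw [e5, e6]
    refine mul_le_mul_of_nonneg_right (by linarith) (by positivity)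
  · have h2 := h 1 (by simp)
    simp only [agF, agM, agC] at h2
    rw [e2 δ hδ]
    refine h2.trans (ENNReal.ofReal_le_ofReal ?_)
    have : 0 < Cb * T := by positivity
    linarith

/-- Row AVGT. -/
theorem avgt (hlow : G10.LOWTStatement) (hband : G10.BANDBStatement)
    (htail : G10.TAILBStatement) : G10.AVGTStatement := by
  intro hRH A B D hD
  obtain ⟨Cb, hCb, hb⟩ := hband A B
  obtain ⟨Tt, hTt, ht⟩ := htail A B
  refine ⟨12 * Cb + 4, by positivity, ?_⟩
  intro ε hε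
  obtain ⟨ν, η, lam₀, hν, hν1, hη, hη1, hlam₀, hl⟩ := hlow hRH A B D hD (ε / 4) (by positivity)
  refine ⟨ν, η, lam₀, hν, hν1, hη, hη1, hlam₀, ?_⟩
  intro lam hlam
  obtain ⟨T0, hT0, h0⟩ := hl lam hlam
  refine ⟨max T0 Tt, lt_max_of_lt_left hT0, ?_⟩
  intro T w K S β S' β' hT hw hS
  have hT1 : T0 ≤ T := (le_max_left _ _).trans hT
  have hT2 : Tt ≤ T := (le_max_right _ _).trans hT
  have hT10 : 10 < T := lt_of_lt_of_le hT0 hT1
  exact avg_one hCb hb hε hν1 hT10 hw hS (h0 T S β hT1 hS.mol)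
    (ht T _ lam S β hT2 (hlam₀.trans hlam) (mol_one hS.mol hν1))

end Pool.Agent.Lib.MP_6bc78b_nt.GP.H41B
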