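import Pool.Agent.Lib.MP_6bc78b_nt.GP.H43.Defs10b
import Pool.Agent.Lib.MP_6bc78b_nt.GP.H41.BandG

/-! Project GP10, row BANDB: the energy at positive frequencies is flat. -/

set_option autoImplicit false

open Complex Filter Topology MeasureTheory ArithmeticFunction Set
open scoped ENNReal

namespace Pool.Agent.Lib.MP_6bc78b_nt.GP.H41B

open Pool.Agent.Lib.MP_6bc78b_nt.MS Pool.Agent.Lib.MP_6bc78b_nt.MS.P1
open Pool.Agent.Lib.MP_6bc78b_nt.GP

/-- The integrand through the measurable function `gM`. -/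
lemma of_eq (A B : ℝ) (S : Finset ℕ) (β : ℕ → ℝ) {T δ : ℝ} (hT : 10 < T)
    (hδ : δ ∈ Icc (1 / T) (2 / T)) (v r : ℝ) :
    ENNReal.ofReal (‖G10.EM A B S β (zp v δ)‖ ^ 2 * r) =
      gM A B S β (zp v δ) * ENNReal.ofReal r := by
  have hTp : 0 < T := by linarith
  have hδ0 : 0 < δ := lt_of_lt_of_le (by positivity) hδ.1
  have hδh : δ ≤ 1 / 2 := by
    refine hδ.2.trans ?_
    rw [div_le_iff₀ hTp]
    linarith
  have hpos := H4.zp_re_pos (u := v) hδ0 hδh
  unfold gM
  rw [if_pos hpos, ENNReal.ofReal_mul (by positivity)]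
  rfl

/-- Row BANDB. -/
theorem bandb : G10.BANDBStatement := by
  intro A B
  obtain ⟨-, -, C, hC, hb⟩ := H38.dx2 A B
  refine ⟨C ^ 2 * 2 * 100000, by positivity, ?_⟩
  intro T N a b S β hT hM ha hab
  have h := band_le hb hC.le hM.one_le hM.nonneg (C₁ := 2) (hM.sum_lcm.trans (by norm_num)) hT
    ha hab
  refine le_trans (le_of_eq ?_) h
  refine setLIntegral_congr_fun measurableSet_Icc fun δ hδ => ?_
  refine lintegral_congr fun v => ?_
  exact of_eq A B S β hT hδ v _

end Pool.Agent.Lib.MP_6bc78b_nt.GP.H41B
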