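import Pool.Agent.Lib.MP_6bc78b_nt.GP.H62.Defs9
import Pool.Agent.Lib.MP_6bc78b_nt.GP.H34.Tai7

/-! Project GP9, row TAI9: the part `|u| > 1/2`, weight `e^(-2H|u| + u)`. Adapted from
helper34, row TAI7. -/

set_option autoImplicit false

open Complex Filter Topology MeasureTheory ArithmeticFunction Set
open scoped ENNReal ComplexConjugate

namespace Pool.Agent.Lib.MP_6bc78b_nt.GP.H41T

open Pool.Agent.Lib.MP_6bc78b_nt.MS Pool.Agent.Lib.MP_6bc78b_nt.MS.P1
open Pool.Agent.Lib.MP_6bc78b_nt.GP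
open H76

/-- The numbers. -/
lemma num_le (C : ℝ) {T : ℝ} (hT : 10 < T) (k : ℤ) :
    Real.exp (15 - 15 * |(k : ℝ)|) * (1 / (4 * Real.pi ^ 2 * Real.exp (2 * k)) *
      (30 * Real.exp k / T * ((2 * Real.pi * Real.exp (k + 1) + 4 * Real.pi) *
        (72 * C ^ 2 * (1 + Real.log (1 + T / (5 * Real.exp k))) ^ 4 / (5 * Real.exp k / T))))) ≤
      (C ^ 2 * 34992 * Real.exp 20) * Real.log T ^ 4 * Real.exp (-|(k : ℝ)|) := by
  have hTp : 0 < T := by linarith
  have hpi := Real.pi_pos
  have hpi3 := Real.pi_gt_three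
  have hL : 1 ≤ Real.log T := by
    rw [Real.le_log_iff_exp_le hTp]
    have := Real.exp_one_lt_d9
    linarith
  set a : ℝ := |(k : ℝ)| with ha
  have ha0 : 0 ≤ a := abs_nonneg _
  have hka : (k : ℝ) ≤ a := le_abs_self _
  have hka' : -(k : ℝ) ≤ a := neg_le_abs _
  have hek : 0 < Real.exp (k : ℝ) := Real.exp_pos _
  -- the logarithm
  have hl : 1 + Real.log (1 + T / (5 * Real.exp k)) ≤ 3 * Real.log T * Real.exp a := by
    have h1 : T / (5 * Real.exp k) ≤ T * Real.exp a := by
      rw [div_eq_mul_inv]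
      refine mul_le_mul_of_nonneg_left ?_ hTp.le
      rw [mul_inv, ← Real.exp_neg]
      calc (5 : ℝ)⁻¹ * Real.exp (-(k : ℝ)) ≤ 1 * Real.exp a :=
            mul_le_mul (by norm_num) (Real.exp_le_exp.2 hka') (Real.exp_pos _).le (by norm_num)
        _ = Real.exp a := one_mul _
    have hea : 1 ≤ Real.exp a := Real.one_le_exp ha0
    have h2 : 1 + T / (5 * Real.exp k) ≤ T ^ 2 * Real.exp a := by
      have h3 : 1 ≤ T * (T - 1) := by nlinarith
      have h4 : 1 ≤ T * (T - 1) * Real.exp a := one_le_mul_of_one_le_of_one_le h3 hea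
      have h5 : T * (T - 1) * Real.exp a = T ^ 2 * Real.exp a - T * Real.exp a := by ring
      linarith
    have h4 : Real.log (1 + T / (5 * Real.exp k)) ≤ 2 * Real.log T + a := by
      refine (Real.log_le_log (by positivity) h2).trans (le_of_eq ?_)
      rw [Real.log_mul (by positivity) (by positivity), Real.log_pow, Real.log_exp]
      push_cast
      ring
    have h5 : 1 + a ≤ Real.exp a := by linarith [Real.add_one_le_exp a]
    nlinarith
  have hl0 : 0 ≤ 1 + Real.log (1 + T / (5 * Real.exp k)) := by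
    have : 0 ≤ Real.log (1 + T / (5 * Real.exp k)) := Real.log_nonneg (by
      have : 0 < T / (5 * Real.exp (k : ℝ)) := by positivity
      linarith)
    linarith
  have hl4 : (1 + Real.log (1 + T / (5 * Real.exp k))) ^ 4 ≤
      81 * Real.log T ^ 4 * Real.exp (4 * a) := by
    refine (pow_le_pow_left₀ hl0 hl 4).trans (le_of_eq ?_)
    rw [mul_pow, mul_pow, ← Real.exp_nat_mul]
    norm_num
  -- the rest
  have hy : 2 * Real.pi * Real.exp (k + 1) + 4 * Real.pi ≤ 10 * Real.pi * Real.exp a := by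
    have h1 : Real.exp ((k : ℝ) + 1) ≤ 3 * Real.exp a := by
      rw [Real.exp_add, mul_comm]
      have := Real.exp_one_lt_d9
      exact mul_le_mul (by linarith) (Real.exp_le_exp.2 hka) (Real.exp_pos _).le (by norm_num)
    have hea : 1 ≤ Real.exp a := Real.one_le_exp ha0
    nlinarith
  have hx : 30 * Real.exp (k : ℝ) / T * ((2 * Real.pi * Real.exp (k + 1) + 4 * Real.pi) *
        (72 * C ^ 2 * (1 + Real.log (1 + T / (5 * Real.exp k))) ^ 4 / (5 * Real.exp k / T))) =
      432 * C ^ 2 * ((2 * Real.pi * Real.exp (k + 1) + 4 * Real.pi) *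
        (1 + Real.log (1 + T / (5 * Real.exp k))) ^ 4) := by
    field_simp
    ring
  rw [hx]
  have h6 : (2 * Real.pi * Real.exp (k + 1) + 4 * Real.pi) *
        (1 + Real.log (1 + T / (5 * Real.exp k))) ^ 4 ≤
      (10 * Real.pi * Real.exp a) * (81 * Real.log T ^ 4 * Real.exp (4 * a)) :=
    mul_le_mul hy hl4 (by positivity) (by positivity)
  have h7 : 1 / (4 * Real.pi ^ 2 * Real.exp (2 * k)) ≤ 1 / (4 * Real.pi ^ 2) * Real.exp (2 * a) := by
    rw [one_div, mul_inv, ← one_div, ← Real.exp_neg]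
    refine mul_le_mul_of_nonneg_left (Real.exp_le_exp.2 ?_) (by positivity)
    linarith
  calc Real.exp (15 - 15 * a) * (1 / (4 * Real.pi ^ 2 * Real.exp (2 * k)) *
      (432 * C ^ 2 * ((2 * Real.pi * Real.exp (k + 1) + 4 * Real.pi) *
        (1 + Real.log (1 + T / (5 * Real.exp k))) ^ 4)))
      ≤ Real.exp (15 - 15 * a) * ((1 / (4 * Real.pi ^ 2) * Real.exp (2 * a)) *
      (432 * C ^ 2 * ((10 * Real.pi * Real.exp a) * (81 * Real.log T ^ 4 * Real.exp (4 * a))))) := by
        refine mul_le_mul_of_nonneg_left ?_ (Real.exp_pos _).le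
        refine mul_le_mul h7 ?_ (by positivity) (by positivity)
        exact mul_le_mul_of_nonneg_left h6 (by positivity)
    _ = (C ^ 2 * 34992 * Real.log T ^ 4) * (10 / (4 * Real.pi)) *
        Real.exp (15 - 15 * a + 7 * a) := by
        have e1 : Real.exp (15 - 15 * a + 7 * a) =
            Real.exp (15 - 15 * a) * Real.exp (2 * a) * Real.exp a *
              Real.exp (4 * a) := by
          rw [← Real.exp_add, ← Real.exp_add, ← Real.exp_add]
          congr 1
          ring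
        rw [e1]
        field_simp
        ring
    _ ≤ (C ^ 2 * 34992 * Real.log T ^ 4) * 1 * Real.exp (20 + -a) := by
        refine mul_le_mul ?_ (Real.exp_le_exp.2 ?_) (Real.exp_pos _).le (by positivity)
        · refine mul_le_mul_of_nonneg_left ?_ (by positivity)
          rw [div_le_one (by positivity)]
          linarith
        · linarith
    _ = _ := by
        rw [Real.exp_add]
        ring

/-- The weight on the block number `k`. -/
lemma weight_le (k : ℤ) {u : ℝ} (hu : u ∈ Icc (k : ℝ) (k + 1)) :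
    Real.exp (-(16 * |u|) + u) ≤ Real.exp (15 - 15 * |(k : ℝ)|) := by
  refine Real.exp_le_exp.2 ?_
  have h1 : u ≤ |u| := le_abs_self u
  have h2 : |(k : ℝ)| ≤ |u| + 1 := by
    have h3 : |(k : ℝ)| - |u| ≤ |(k : ℝ) - u| := abs_sub_abs_le_abs_sub _ _
    have h4 : |(k : ℝ) - u| ≤ 1 := by
      rw [abs_le]
      constructor
      · linarith [hu.2]
      · linarith [hu.1]
    linarith
  linarith

/-- The function on the `u`-side. -/
noncomputable def GG (A B : ℝ) (p : ℝ × ℝ) : ℝ≥0∞ :=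
  H4.gE A B (zp p.2 p.1) * ENNReal.ofReal (Real.exp (-(16 * |p.2|) + p.2))

lemma meas_J0 (A B : ℝ) : Measurable (GG A B) := by
  unfold GG
  refine ((H4.measurable_gE H38.dx2 A B).comp H92.meas_zp).mul ?_
  refine Measurable.ennreal_ofReal (Continuous.measurable ?_)
  fun_prop

lemma meas_Ju (A B δ : ℝ) : Measurable fun u : ℝ => GG A B (δ, u) := by
  have h1 : Measurable fun u : ℝ => zp u δ := by
    refine Continuous.measurable ?_
    unfold zp
    fun_prop
  unfold GG
  refine ((H4.measurable_gE H38.dx2 A B).comp h1).mul ?_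
  refine Measurable.ennreal_ofReal (Continuous.measurable ?_)
  fun_prop

/-- One block. -/
lemma block_le (A B C : ℝ) (hb : ∀ n : ℕ, |bn A B n| ≤ C * (1 + Real.log n) ^ 2)
    {T : ℝ} (hT : 10 < T) (k : ℤ) :
    ∫⁻ δ in Icc (1 / T) (2 / T), ∫⁻ u in Icc (k : ℝ) (k + 1), GG A B (δ, u) ≤
      ENNReal.ofReal ((C ^ 2 * 34992 * Real.exp 20) * Real.log T ^ 4 * Real.exp (-|(k : ℝ)|)) := by
  have hTp : 0 < T := by linarith
  have hpi := Real.pi_pos
  have h1 : ∫⁻ δ in Icc (1 / T) (2 / T), ∫⁻ u in Icc (k : ℝ) (k + 1), GG A B (δ, u) ≤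
      ENNReal.ofReal (Real.exp (15 - 15 * |(k : ℝ)|)) *
        ∫⁻ w in H34T.BX k T, H4.gE A B (ph w) := by
    have hm : Measurable fun w : ℂ => ENNReal.ofReal
        (Real.exp (15 - 15 * |(k : ℝ)|)) * H4.gE A B (ph w) :=
      ((H4.measurable_gE H38.dx2 A B).comp measurable_ph).const_mul _
    have hm0 : Measurable fun w : ℂ => H4.gE A B (ph w) :=
      (H4.measurable_gE H38.dx2 A B).comp measurable_ph
    rw [← lintegral_const_mul _ hm0]
    have h2 := iter_eq (fun w : ℂ => ENNReal.ofReal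
        (Real.exp (15 - 15 * |(k : ℝ)|)) * H4.gE A B (ph w)) hm
        (k : ℝ) (k + 1) (1 / T) (2 / T)
    refine le_trans ?_ (le_of_eq h2)
    refine lintegral_mono fun δ => ?_
    refine setLIntegral_mono' measurableSet_Icc fun u hu => ?_
    unfold GG
    rw [← zp_re_im, mul_comm]
    exact mul_le_mul' (ENNReal.ofReal_le_ofReal (weight_le k hu)) le_rfl
  refine h1.trans ((mul_le_mul' le_rfl (H34T.box_le A B C hb hT.le k)).trans ?_)
  rw [← ENNReal.ofReal_mul (by positivity), ← ENNReal.ofReal_mul (by positivity)]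
  exact ENNReal.ofReal_le_ofReal (num_le C hT k)

/-- The whole line. -/
lemma line_le (A B C : ℝ) (hb : ∀ n : ℕ, |bn A B n| ≤ C * (1 + Real.log n) ^ 2)
    {T : ℝ} (hT : 10 < T) :
    ∫⁻ δ in Icc (1 / T) (2 / T), ∫⁻ u : ℝ, GG A B (δ, u) ≤
      ENNReal.ofReal ((C ^ 2 * 34992 * Real.exp 20) * Real.log T ^ 4 *
        ∑' k : ℤ, Real.exp (-|(k : ℝ)|)) := by
  have hTp : 0 < T := by linarith
  have hL : 1 ≤ Real.log T := by
    rw [Real.le_log_iff_exp_le hTp]
    have := Real.exp_one_lt_d9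
    linarith
  have hmeas : Measurable (GG A B) := meas_J0 A B
  have hcov : (⋃ k : ℤ, Icc (k : ℝ) (k + 1)) = univ := by
    rw [eq_univ_iff_forall]
    intro u
    rw [mem_iUnion]
    exact ⟨⌊u⌋, Int.floor_le u, (Int.lt_floor_add_one u).le⟩
  have h1 : ∀ δ : ℝ, ∫⁻ u : ℝ, GG A B (δ, u) ≤
      ∑' k : ℤ, ∫⁻ u in Icc (k : ℝ) (k + 1), GG A B (δ, u) := by
    intro δ
    rw [← setLIntegral_univ, ← hcov]
    exact lintegral_iUnion_le _ _
  refine (lintegral_mono fun δ => h1 δ).trans ?_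
  rw [lintegral_tsum]
  · refine (ENNReal.tsum_le_tsum fun k => block_le A B C hb hT k).trans (le_of_eq ?_)
    rw [← ENNReal.ofReal_tsum_of_nonneg]
    · rw [tsum_mul_left]
    · intro k
      positivity
    · exact H34T.summable_exp_abs.mul_left _
  · intro k
    exact (hmeas.lintegral_prod_right').aemeasurable

/-- Row TAI9. -/
theorem tai9 : G9.TAI9Statement := by
  intro A B
  obtain ⟨-, -, C, hC, hb⟩ := H38.dx2 A B
  have hS : 0 < ∑' k : ℤ, Real.exp (-|(k : ℝ)|) :=
    H34T.summable_exp_abs.tsum_pos (fun k => (Real.exp_pos _).le) 0 (Real.exp_pos _)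
  refine ⟨(C ^ 2 * 34992 * Real.exp 20) * ∑' k : ℤ, Real.exp (-|(k : ℝ)|), 11,
    by positivity, by norm_num, ?_⟩
  intro T H hT hH
  have hT10 : 10 < T := by linarith
  have hTp : 0 < T := by linarith
  have hline := line_le A B C hb hT10
  have hpt : ∀ δ ∈ Icc (1 / T) (2 / T), ∫⁻ u in {u : ℝ | 1 / 2 < |u|},
      ENNReal.ofReal (‖EE A B (zp u δ)‖ ^ 2 * Real.exp (-(2 * H * |u|) + u)) ≤
      ∫⁻ u : ℝ, GG A B (δ, u) := by
    intro δ hδ
    have hδ0 : 0 < δ := lt_of_lt_of_le (by positivity) hδ.1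
    have hδh : δ ≤ 1 / 2 := by
      refine hδ.2.trans ?_
      rw [div_le_iff₀ hTp]
      linarith
    have hset : MeasurableSet {u : ℝ | 1 / 2 < |u|} :=
      measurableSet_lt measurable_const measurable_norm
    refine (setLIntegral_mono' hset fun u _ => ?_).trans (setLIntegral_le_lintegral _ _)
    have hpos := H4.zp_re_pos (u := u) hδ0 hδh
    unfold GG H4.gE
    rw [if_pos hpos, ← ENNReal.ofReal_mul (by positivity)]
    refine ENNReal.ofReal_le_ofReal ?_
    refine mul_le_mul_of_nonneg_left (Real.exp_le_exp.2 ?_) (by positivity)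
    nlinarith [abs_nonneg u]
  refine (setLIntegral_mono' measurableSet_Icc hpt).trans ?_
  refine (setLIntegral_mono' measurableSet_Icc fun δ _ => le_rfl).trans (hline.trans ?_)
  refine ENNReal.ofReal_le_ofReal (le_of_eq ?_)
  ring

end Pool.Agent.Lib.MP_6bc78b_nt.GP.H41T
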