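import Pool.Agent.Lib.MP_6bc78b_nt.GP.H43.Defs10t
import Pool.Agent.Lib.MP_6bc78b_nt.GP.H11.Zdb

/-! Project GP10, row ZDT: from the strong form of ZDB (helper11). -/

set_option autoImplicit false

open Complex Filter Topology MeasureTheory ArithmeticFunction Set

namespace Pool.Agent.Lib.MP_6bc78b_nt.GP.H41Z

open Pool.Agent.Lib.MP_6bc78b_nt Pool.Agent.Lib.MP_6bc78b_nt.MS
open Pool.Agent.Lib.MP_6bc78b_nt.GP.G10

/-- Row ZDT. -/
theorem zdt (hZ : RiemannHypothesis → MS.P5.HM.ZduStatement) : ZDTStatement := by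
  intro hRH
  obtain ⟨C, T0, hC, hT0, h⟩ := H11.zdb_strong hZ hRH
  refine ⟨C, max T0 256, hC, lt_of_lt_of_le hT0 (le_max_left _ _), fun T S β hT hM => ?_⟩
  have hT0' : T0 ≤ T := (le_max_left _ _).trans hT
  have hT256 : 256 ≤ T := (le_max_right _ _).trans hT
  have hTp : 0 < T := by linarith
  have hq : T ^ (1 / 100 : ℝ) ≤ T ^ (1 / 4 : ℝ) :=
    Real.rpow_le_rpow_of_exponent_le (by linarith) (by norm_num)
  have h4 : (4 : ℝ) ≤ T ^ (1 / 4 : ℝ) := by
    calc (4 : ℝ) = (256 : ℝ) ^ (1 / 4 : ℝ) := by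
          rw [show (256 : ℝ) = 4 ^ (4 : ℝ) by norm_num, ← Real.rpow_mul (by norm_num)]
          norm_num
      _ ≤ T ^ (1 / 4 : ℝ) := Real.rpow_le_rpow (by norm_num) hT256 (by norm_num)
  have h5 : T ^ (1 / 2 : ℝ) = T ^ (1 / 4 : ℝ) * T ^ (1 / 4 : ℝ) := by
    rw [← Real.rpow_add hTp]
    norm_num
  have h6 : T = T ^ (1 / 2 : ℝ) * T ^ (1 / 2 : ℝ) := by
    rw [← Real.rpow_add hTp]
    norm_num
  have hNle : T ^ (1 / 100 : ℝ) ≤ T ^ (1 / 2 : ℝ) / 2 := by
    rw [h5]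
    nlinarith
  have h7 : T ^ (1 / 2 : ℝ) / 2 ≤ T / 4 := by
    have h8 : (16 : ℝ) ≤ T ^ (1 / 2 : ℝ) := by rw [h5]; nlinarith
    nlinarith
  have h10 := h T S β hT0' fun m hm =>
    ⟨hM.one_le m hm, (hM.le m hm).trans hNle, hM.nonneg m, by
      have hm0 : (0 : ℝ) < m := by
        have := hM.one_le m hm
        exact_mod_cast this
      have h9 : β m / m ≤ 1 := by
        rw [← hM.sum_one]
        exact Finset.single_le_sum (f := fun m : ℕ => β m / m)
          (fun i _ => div_nonneg (hM.nonneg i) (Nat.cast_nonneg i)) hm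
      rw [div_le_one hm0] at h9
      exact h9.trans ((hM.le m hm).trans (hNle.trans h7))⟩
  refine h10.trans ?_
  have h1 : Real.log T ≤ T := (Real.log_le_sub_one_of_pos hTp).trans (by linarith)
  have h2 : C * (T * Real.log T * (∑ m ∈ S, β m ^ 2 / m) + Real.log T) ≤
      C * (T * Real.log T * (∑ m ∈ S, β m ^ 2 / m) + T) := by gcongr
  refine h2.trans (le_of_eq ?_)
  ring

end Pool.Agent.Lib.MP_6bc78b_nt.GP.H41Z
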